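import Mathlib

namespace Pool.Agent.Results.MP_f93fdf_pr.NoStar
open MeasureTheory ProbabilityTheory Filter Finset Measure
open scoped ENNReal Classical

/-- birth times; `i :: u` is the `(i+1)`-st child of `u`, and `X u j` is the waiting time of `u`
before its `(j+1)`-st child -/
noncomputable def B (X : List ℕ → ℕ → ℝ≥0∞) : List ℕ → ℝ≥0∞
  | [] => 0
  | i :: u => B X u + ∑ j ∈ range (i + 1), X u j
/-- explosion time -/
noncomputable def τ (X : List ℕ → ℕ → ℝ≥0∞) : ℝ≥0∞ := sInf {t | {x | B X x ≤ t}.Infinite}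
/-- individuals born before explosion -/
def T (X : List ℕ → ℕ → ℝ≥0∞) : Set (List ℕ) := {x | B X x < τ X}

abbrev Ω := List ℕ → ℕ → ℝ≥0∞

lemma det {X : Ω} (h0 : ∀ u j, X u j ≠ 0) (h1 : ∀ u t, t ≠ ∞ →
    {i | ∑ j ∈ range (i + 1), X u j ≤ t}.Finite) (h2 : τ X < ∞) :
    (T X).Infinite ∧ ∀ u, {i | i :: u ∈ T X}.Finite := by
  refine ⟨fun hT => ?_, fun u => (h1 u _ h2.ne).subset fun i hi =>
    show _ ≤ τ X from le_add_self.trans (le_of_lt (show B X u + _ < _ from hi))⟩
  have ch : ∀ S : Set (List ℕ), S.Finite → ∀ t, t ≠ ∞ →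
      {x | ∃ i, ∃ u ∈ S, x = i :: u ∧ B X x ≤ t}.Finite := fun S hS t ht =>
    (hS.biUnion fun u _ => (h1 u t ht).image (· :: u)).subset fun x ⟨i, u, a, b, c⟩ =>
      Set.mem_biUnion a ⟨i, le_add_self.trans (b ▸ c :), b.symm⟩
  have hD : {x | B X x ≤ τ X}.Finite := ((ch _ hT _ h2.ne).insert []).subset fun x hx => by
    rcases x with _ | ⟨i, u⟩
    · exact .inl rfl
    refine .inr ⟨i, u, lt_of_lt_of_le (ENNReal.lt_add_right (ne_top_of_le_ne_top h2.ne
      (le_self_add.trans hx)) fun h => ?_) hx, rfl, hx⟩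
    exact h0 u 0 (sum_eq_zero_iff.1 h 0 (by simp))
  have hE := ch _ hD (τ X + 1) (by finiteness)
  let t := (hE.toFinset.filter fun x => τ X < B X x).inf (B X) ⊓ (τ X + 1)
  have ht : τ X < t := lt_inf_iff.2 ⟨(Finset.lt_inf_iff h2).2 fun x hx => (mem_filter.1 hx).2,
    ENNReal.lt_add_right h2.ne one_ne_zero⟩
  have key : ∀ x, B X x < t → B X x ≤ τ X := fun x hx => by
    induction x with
    | nil => exact zero_le
    | cons i u ih =>
      exact not_lt.1 fun h => hx.not_ge (inf_le_left.trans (Finset.inf_le (mem_filter.2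
        ⟨hE.mem_toFinset.2 ⟨i, u, ih (le_self_add.trans_lt hx), rfl, hx.le.trans inf_le_right⟩, h⟩)))
  exact ht.not_ge (le_sInf fun s hs => not_lt.1 fun h =>
    hs (hD.subset fun x hx => key x (lt_of_le_of_lt hx h)))

def sh (i : ℕ) (X : Ω) : Ω := fun v => X (v ++ [i])

lemma B_sh (X : Ω) (i : ℕ) (v : List ℕ) : B X (v ++ [i]) = B X [i] + B (sh i X) v := by
  induction v with
  | nil => simp [B]
  | cons j v ih => rw [List.cons_append, B, ih, B, add_assoc]; rfl

lemma ind (Q : Measure (ℕ → ℝ≥0∞)) [IsProbabilityMeasure Q] {G : Set (ℕ → ℝ≥0∞)} {A : Set Ω}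
    (hG : MeasurableSet G) (hA : MeasurableSet A) (K : ℕ) :
    infinitePi (fun _ => Q) {X : Ω | X [] ∈ G ∧ ∀ i < K, sh i X ∈ A} =
      Q G * infinitePi (fun _ => Q) A ^ K := by
  let κ : Option ℕ → Type := fun o => o.elim Unit fun _ => List ℕ
  let e : (Σ o, κ o) → List ℕ := fun | ⟨none, _⟩ => [] | ⟨some i, v⟩ => (id v : List ℕ) ++ [i]
  have he : e.Injective := by
    rintro ⟨_ | i, v⟩ ⟨_ | j, w⟩ h
    · rfl
    · simp [e] at h
    · simp [e] at h
    · obtain ⟨rfl, h'⟩ := List.append_inj' h rfl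
      obtain rfl : i = j := by simpa using h'
      rfl
  let t : ∀ o, Set (κ o → ℕ → ℝ≥0∞) := fun | none => {y | y () ∈ G} | some _ => A
  have ht : ∀ o, MeasurableSet (t o) := fun
    | none => measurable_pi_apply (X := fun _ : Unit => ℕ → ℝ≥0∞) () hG
    | some _ => hA
  have := infinitePi_pi (fun o => infinitePi fun _ : κ o => Q) (s := insertNone (range K))
    fun o _ => ht o
  rw [← infinitePi_map_piCurry, ← map_infinitePi_infinitePi_of_inj (P := fun _ => Q) he,
    Measure.map_map (by fun_prop) (by fun_prop), Measure.map_apply (by fun_prop)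
    (.pi (countable_toSet _) fun o _ => ht o), prod_insertNone] at this
  convert this using 2
  · ext X
    simp only [Set.mem_ofPred_eq, Set.mem_preimage, Set.mem_pi, mem_coe, Option.forall,
      none_mem_insertNone, some_mem_insertNone, mem_range, forall_true_left]
    rfl
  · exact ((measurePreserving_eval_infinitePi (fun _ : Unit => Q) ()).measure_preimage
      hG.nullMeasurableSet).symm
  · rw [← card_range K, ← prod_const, card_range]; rfl

noncomputable def γ : Measure ℕ := geometricMeasure ⟨1 / 2, by norm_num, by norm_num⟩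
instance : IsProbabilityMeasure γ := by unfold γ; infer_instance

lemma tail (a : ℕ) : γ (Set.Ici a) = 2⁻¹ ^ a := by
  have : γ.real (range a) = 1 - 2⁻¹ ^ a := by
    rw [← sum_measureReal_singleton]
    induction a with
    | zero => simp
    | succ a ih =>
      rw [sum_range_succ, ih, γ, geometricMeasure_real_singleton (by simp [Subtype.ext_iff])]
      norm_num [← one_div]; ring
  rw [← ofReal_measureReal, ← Set.compl_Iio, probReal_compl_eq_one_sub measurableSet_Iio,
    ← coe_range, this, sub_sub_cancel, ENNReal.ofReal_pow (by norm_num),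
    ENNReal.ofReal_inv_of_pos two_pos, ENNReal.ofReal_ofNat]

noncomputable def h (j g : ℕ) : ℝ≥0∞ := if g = 0 ∧ ∃ t, j = 4 ^ t then 1 else 2⁻¹ ^ (2 * j + 1 + g)
noncomputable def ν (j : ℕ) : Measure ℝ≥0∞ := γ.map (h j)
instance (j : ℕ) : IsProbabilityMeasure (ν j) := isProbabilityMeasure_map (by fun_prop)
noncomputable abbrev P : Measure Ω := infinitePi fun _ => infinitePi ν

def s (n : ℕ) : ℕ := n ^ 2 + 4 * n + 7
def G (n : ℕ) : Set (ℕ → ℝ≥0∞) := Set.pi (range (4 ^ s n)) fun j => Set.Iic (2⁻¹ ^ (n + j + 1))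
lemma mG (n : ℕ) : MeasurableSet (G n) := .pi (countable_toSet _) fun _ _ => measurableSet_Iic

lemma half : (2⁻¹ : ℝ≥0∞) ≤ 1 := by simp

lemma good (n : ℕ) : 2⁻¹ ^ (n ^ 2 + s n) ≤ infinitePi ν (G n) := by
  let r : ℕ → ℕ := fun j => (if j < n then n else 0) + if ∃ t, j = 4 ^ t then 1 else 0
  rw [G, infinitePi_pi _ fun _ _ => measurableSet_Iic]
  refine le_trans ?_ (prod_le_prod' (f := fun j => 2⁻¹ ^ r j) fun j _ => ?_)
  · rw [prod_pow_eq_pow_sum, sum_add_distrib, ← sum_filter, ← card_filter, sum_const, smul_eq_mul]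
    refine pow_le_pow_right_of_le_one' half (add_le_add (sq n ▸ Nat.mul_le_mul_right n ?_) ?_)
    · exact (card_le_card fun j hj => mem_range.2 (mem_filter.1 hj).2).trans_eq (card_range n)
    · refine (card_le_card (t := (range (s n)).image (4 ^ ·)) fun j hj => ?_).trans
        (card_image_le.trans_eq (card_range _))
      obtain ⟨a, t, rfl⟩ := mem_filter.1 hj
      exact mem_image_of_mem _ (mem_range.2 ((Nat.pow_lt_pow_iff_right (by norm_num)).1
        (mem_range.1 a)))
  · rw [ν, Measure.map_apply (by fun_prop) measurableSet_Iic, ← tail]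
    refine measure_mono fun g (hg : _ ≤ g) => show h j g ≤ _ from ?_
    simp only [r] at hg
    rw [h, if_neg fun ⟨a, b⟩ => by rw [if_pos b] at hg; omega]
    exact pow_le_pow_right_of_le_one' half (by split_ifs at hg <;> omega)

def A : ℕ → ℕ → Set Ω
  | 0, _ => Set.univ
  | m + 1, n => {X | X [] ∈ G n} \ {X | X [] ∈ G n ∧ ∀ i < 4 ^ s n, sh i X ∈ (A m (n + 1))ᶜ}

lemma msh (i : ℕ) : Measurable (sh i) := by unfold sh; fun_prop

lemma mB {A : Set Ω} (hA : MeasurableSet A) (n K : ℕ) :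
    MeasurableSet {X : Ω | X [] ∈ G n ∧ ∀ i < K, sh i X ∈ A} := by
  simp only [Set.ofPred_and, Set.ofPred_forall]
  exact (measurable_pi_apply (X := fun _ : List ℕ => ℕ → ℝ≥0∞) [] (mG n)).inter
    (.iInter fun i => .iInter fun _ => msh i hA)

lemma mA (m n : ℕ) : MeasurableSet (A m n) := by
  induction m generalizing n with
  | zero => exact .univ
  | succ m ih =>
    exact (measurable_pi_apply (X := fun _ : List ℕ => ℕ → ℝ≥0∞) [] (mG n)).diff (mB (ih _).compl _ _)

lemma bern {x : ℝ} (h0 : 0 ≤ x) (h1 : x ≤ 1) {K : ℕ} (h : 1 ≤ K * x) : (1 - x) ^ K ≤ 1 / 2 := by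
  have a := one_add_mul_le_pow (show -2 ≤ x by linarith) K
  have b : (1 - x) ^ K * (1 + x) ^ K ≤ 1 := by
    rw [← mul_pow]; exact pow_le_one₀ (by nlinarith) (by nlinarith)
  nlinarith [pow_nonneg (sub_nonneg.2 h1) K]

lemma surv (m n : ℕ) : 2⁻¹ ^ (n ^ 2 + s n + 1) ≤ P.real (A m n) := by
  induction m generalizing n with
  | zero => rw [A, probReal_univ]; exact pow_le_one₀ (by norm_num) (by norm_num)
  | succ m ih =>
    have g : 2⁻¹ ^ (n ^ 2 + s n) ≤ (infinitePi ν).real (G n) := by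
      simpa [measureReal_def] using ENNReal.toReal_mono (measure_ne_top _ _) (good n)
    have i0 := ind (infinitePi ν) (mG n) (mA m (n + 1)).compl 0
    have i1 := ind (infinitePi ν) (mG n) (mA m (n + 1)).compl (4 ^ s n)
    have b := bern measureReal_nonneg measureReal_le_one (K := 4 ^ s n)
      (le_trans ?_ (mul_le_mul_of_nonneg_left (ih (n + 1)) (Nat.cast_nonneg _)))
    · have m2 := mB (mA m (n + 1)).compl n (4 ^ s n)
      simp only [Nat.not_lt_zero, false_imp_iff, implies_true, and_true, pow_zero, mul_one] at i0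
      rw [A, measureReal_sdiff (s₁ := {X : Ω | X [] ∈ G n}) (fun _ h => h.1) m2, measureReal_def, measureReal_def, i0, i1,
        ENNReal.toReal_mul, ENNReal.toReal_pow, ← measureReal_def, ← measureReal_def,
        probReal_compl_eq_one_sub (mA _ _), pow_succ]
      nlinarith [pow_pos (show (0 : ℝ) < 2⁻¹ by norm_num) (n ^ 2 + s n)]
    · rw [Nat.cast_pow, show ((4 : ℕ) : ℝ) = 2 ^ 2 by norm_num, ← pow_mul, inv_pow,
        show 2 * s n = (n + 1) ^ 2 + s (n + 1) + 1 by simp only [s]; ring,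
        mul_inv_cancel₀ (by positivity)]

lemma path {m n : ℕ} {X : Ω} (hX : X ∈ A m n) : ∃ x, x.length = m ∧ B X x ≤ 2 * 2⁻¹ ^ n := by
  induction m generalizing n X with
  | zero => exact ⟨[], rfl, zero_le⟩
  | succ m ih =>
    obtain ⟨i, hi, hA⟩ : ∃ i < 4 ^ s n, sh i X ∈ A m (n + 1) := by
      by_contra! hc; exact hX.2 ⟨hX.1, hc⟩
    obtain ⟨x, x1, x2⟩ := ih hA
    refine ⟨x ++ [i], by simp [x1], ?_⟩
    rw [B_sh, two_mul]
    refine add_le_add ?_ (x2.trans_eq (by
      rw [pow_succ', ← mul_assoc, ENNReal.mul_inv_cancel two_ne_zero (by simp), one_mul]))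
    rw [B, B, zero_add]
    refine (sum_le_sum fun j hj => hX.1 j (mem_coe.2 (mem_range.2 (by
      have := mem_range.1 hj; omega)))).trans ((ENNReal.sum_le_tsum _).trans_eq ?_)
    simp only [add_assoc, pow_add _ n, ENNReal.tsum_mul_left, ENNReal.tsum_geometric_add_one]
    simp [ENNReal.inv_mul_cancel]

lemma coord {p : ℕ → ℝ≥0∞ → Prop} (hp : ∀ j g, p j (h j g)) (m : ∀ j, MeasurableSet {x | p j x}) :
    ∀ᵐ X ∂P, ∀ u j, p j (X u j) := ae_all_iff.2 fun u =>
  (measurePreserving_eval_infinitePi (fun _ => infinitePi ν) u).quasiMeasurePreserving.ae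
    (p := fun y => ∀ j, p j (y j)) (ae_all_iff.2 fun j =>
    (measurePreserving_eval_infinitePi ν j).quasiMeasurePreserving.ae
      ((ae_map_iff (by fun_prop) (m j)).2 (.of_forall (hp j))))

lemma null {α : Type} [MeasurableSpace α] {μ : Measure α} {S : Set α} {r : ℝ≥0∞} (hr : r < 1)
    (h : ∀ m : ℕ, μ S ≤ r ^ m) : μ S = 0 :=
  le_zero_iff.1 (ge_of_tendsto' (ENNReal.tendsto_pow_atTop_nhds_zero_of_lt_one hr) h)

lemma block : ∀ᵐ y ∂infinitePi ν, ∀ N, ∃ j, N ≤ j ∧ 1 ≤ y j := ae_all_iff.2 fun N => by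
  refine null (r := 2⁻¹) (by simp) fun m => (measure_mono (t := Set.pi ((Ico N (N + m)).image
    (4 ^ ·)) fun _ => Set.Iio 1) fun y hy j hj => ?_).trans ?_
  · obtain ⟨t, a, rfl⟩ := mem_image.1 hj
    exact not_le.1 fun h => hy ⟨_, (mem_Ico.1 a).1.trans (Nat.lt_pow_self (by norm_num)).le, h⟩
  rw [infinitePi_pi _ fun _ _ => measurableSet_Iio,
    prod_image fun _ _ _ _ h => Nat.pow_right_injective (by norm_num) h]
  refine (prod_le_pow_card _ _ 2⁻¹ fun t _ => ?_).trans_eq (by simp)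
  rw [ν, Measure.map_apply (by fun_prop) measurableSet_Iio, ← pow_one 2⁻¹, ← tail]
  exact measure_mono fun g (hg : h _ g < 1) => Nat.pos_of_ne_zero fun h0 =>
    hg.ne (if_pos ⟨h0, t, rfl⟩)

theorem result : ∃ ν : ℕ → Measure ℝ≥0∞, (∀ j, IsProbabilityMeasure (ν j)) ∧
    (∀ j, ν j {0} = 0) ∧ ∀ᵐ X ∂infinitePi fun _ : List ℕ => infinitePi ν,
      τ X < ∞ ∧ (T X).Infinite ∧ ∀ u, {i | i :: u ∈ T X}.Finite := by
  have h0 : ∀ j g, h j g ≠ 0 := fun j g => by unfold h; split_ifs <;> simp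
  refine ⟨ν, inferInstance, fun j => ?_, ?_⟩
  · rw [ν, Measure.map_apply (by fun_prop) (.singleton _), Set.eq_empty_of_forall_notMem (s := _ ⁻¹' _) (h0 j),
      measure_empty]
  have mS : MeasurableSet (⋂ m, A m 0) := .iInter fun m => mA m 0
  have anti : ∀ m n, A (m + 1) n ⊆ A m n := fun m => by
    induction m with
    | zero => exact fun _ => Set.subset_univ _
    | succ m ih => exact fun n X hX => ⟨hX.1, fun h => hX.2 ⟨h.1, fun i hi a => h.2 i hi (ih _ a)⟩⟩
  have pos : P (⋂ m, A m 0)ᶜ < 1 := by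
    rw [prob_compl_eq_one_sub mS]
    refine ENNReal.sub_lt_self ENNReal.one_ne_top one_ne_zero (ne_of_gt ?_)
    rw [(antitone_nat_of_succ_le fun m => anti m 0).measure_iInter (fun m => (mA m 0).nullMeasurableSet)
      ⟨0, measure_ne_top _ _⟩]
    exact (ENNReal.ofReal_pos.2 (by positivity)).trans_le
      (le_iInf fun m => ENNReal.ofReal_le_of_le_toReal (surv m 0))
  have ex : ∀ᵐ X ∂P, ∃ i, sh i X ∈ ⋂ m, A m 0 := null pos fun K => by
    have := ind (infinitePi ν) .univ mS.compl K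
    rw [measure_univ, one_mul] at this
    rw [← this]
    exact measure_mono fun X hX => ⟨trivial, fun i _ h => hX ⟨i, h⟩⟩
  filter_upwards [ex, coord h0 fun _ => (MeasurableSet.singleton 0).compl,
    coord (p := fun _ x => x ≤ 1) (fun j g => by
      unfold h; split_ifs; exacts [le_rfl, pow_le_one' half _]) fun _ => measurableSet_Iic,
    ae_all_iff.2 fun u => (measurePreserving_eval_infinitePi _ u).quasiMeasurePreserving.ae block]
    with X ⟨i, hi⟩ a1 a2 a3
  have t : τ X < ∞ := by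
    refine (sInf_le (a := B X [i] + 2) fun hf => ?_).trans_lt (ENNReal.add_lt_top.2 ⟨?_, by simp⟩)
    · refine Set.infinite_univ ((hf.image fun x => x.length - 1).subset fun m _ => ?_)
      obtain ⟨x, x1, x2⟩ := path (Set.mem_iInter.1 hi m)
      exact ⟨x ++ [i], (B_sh ..).trans_le (add_le_add le_rfl (by simpa using x2)), by simp [x1]⟩
    · rw [B, B, zero_add]
      exact ENNReal.sum_lt_top.2 fun j _ => (a2 _ j).trans_lt ENNReal.one_lt_top
  refine ⟨t, det a1 (fun u t ht => ?_) t⟩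
  have : ∀ k : ℕ, ∃ N, (k : ℝ≥0∞) ≤ ∑ j ∈ range N, X u j := fun k => by
    induction k with
    | zero => exact ⟨0, by simp⟩
    | succ k ih =>
      obtain ⟨N, hN⟩ := ih
      obtain ⟨j, j1, j2⟩ := a3 u N
      refine ⟨j + 1, ?_⟩
      rw [sum_range_succ, Nat.cast_succ]
      exact add_le_add (hN.trans (sum_le_sum_of_subset (range_mono j1))) j2
  obtain ⟨k, hk⟩ := ENNReal.exists_nat_gt ht
  obtain ⟨N, hN⟩ := this k
  exact (Set.finite_lt_nat N).subset fun i hi => show i < N from not_le.1 fun h =>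
    hk.not_ge (hN.trans ((sum_le_sum_of_subset (range_mono (by omega))).trans hi))

end Pool.Agent.Results.MP_f93fdf_pr.NoStar
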